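import Pool.Agent.Helper5.FRC.Defs

set_option autoImplicit false

namespace Pool.Agent.Helper83.FRC.TWIST

open Pool.Agent.Helper5.FRC
open Finset

theorem t : TwistStmt := by
  intro V _ _ n C hC hodd E hE hne hcl
  obtain ⟨-, hinv, hmin⟩ := hC
  have hEn : E.image n ⊆ C := by
    intro x hx
    obtain ⟨y, hy, rfl⟩ := Finset.mem_image.1 hx
    exact hinv y (hE hy)
  by_cases hF : (E ∩ E.image n).Nonempty
  · have h1 : E ∩ E.image n = C := by
      refine hmin _ (Finset.inter_subset_left.trans hE) hF ?_
      intro x hx
      obtain ⟨hx1, hx2⟩ := Finset.mem_inter.1 hx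
      obtain ⟨y, hy, rfl⟩ := Finset.mem_image.1 hx2
      exact Finset.mem_inter.2 ⟨hcl y hy, Finset.mem_image_of_mem _ hx1⟩
    exact Finset.Subset.antisymm hE (h1 ▸ Finset.inter_subset_left)
  · exfalso
    have hd : Disjoint E (E.image n) := by
      rw [Finset.disjoint_iff_inter_eq_empty]
      exact Finset.not_nonempty_iff_eq_empty.1 hF
    have h2 : E ∪ E.image n = C := by
      refine hmin _ (Finset.union_subset hE hEn) (hne.mono Finset.subset_union_left) ?_
      intro x hx
      rcases Finset.mem_union.1 hx with hx | hx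
      · exact Finset.mem_union_right _ (Finset.mem_image_of_mem _ hx)
      · obtain ⟨y, hy, rfl⟩ := Finset.mem_image.1 hx
        exact Finset.mem_union_left _ (hcl y hy)
    have h3 : C.card = E.card + E.card := by
      rw [← h2, Finset.card_union_of_disjoint hd, Finset.card_image_of_injective _ n.injective]
    rw [h3] at hodd
    exact (Nat.not_odd_iff_even.2 ⟨_, rfl⟩) hodd

end Pool.Agent.Helper83.FRC.TWIST
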